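import Pool.Agent.H6.FI.TargetsB

/-!
# Row ABL of fi_modules: characters of abelian groups
-/

open scoped Classical

namespace Pool.Agent.H72.FI

open _root_.FI AMc AMt

theorem trace_mul_one (f g : (Fin 1 → ℂ) →ₗ[ℂ] (Fin 1 → ℂ)) :
    LinearMap.trace ℂ (Fin 1 → ℂ) (f * g) =
      LinearMap.trace ℂ (Fin 1 → ℂ) f * LinearMap.trace ℂ (Fin 1 → ℂ) g := by
  rw [LinearMap.trace_eq_matrix_trace ℂ (Pi.basisFun ℂ (Fin 1)),
    LinearMap.trace_eq_matrix_trace ℂ (Pi.basisFun ℂ (Fin 1)),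
    LinearMap.trace_eq_matrix_trace ℂ (Pi.basisFun ℂ (Fin 1)), LinearMap.toMatrix_mul,
    Matrix.trace_fin_one, Matrix.trace_fin_one, Matrix.trace_fin_one, Matrix.mul_apply,
    Fin.sum_univ_one]

theorem irr_abelian {G : Type} [Group G] (hG : ∀ a b : G, a * b = b * a) (χ : G → ℂ)
    (hχ : χ ∈ Irr G) : χ 1 = 1 ∧ ∀ a b, χ (a * b) = χ a * χ b := by
  obtain ⟨n, ρ, hirr, rfl⟩ := hχ
  haveI : IsMulCommutative G := ⟨⟨hG⟩⟩
  haveI := hirr
  have h1 := Representation.IsIrreducible.finrank_eq_one_of_isMulCommutative ρ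
  rw [Module.finrank_fin_fun] at h1
  subst h1
  constructor
  · change LinearMap.trace ℂ (Fin 1 → ℂ) (ρ 1) = 1
    rw [map_one, LinearMap.trace_one, Module.finrank_fin_fun]
    norm_num
  · intro a b
    change LinearMap.trace ℂ (Fin 1 → ℂ) (ρ (a * b)) = _
    rw [map_mul]
    exact trace_mul_one _ _

theorem pf_ABL : T_ABL := by
  intro Γ _ _ Z hZ ν hν
  obtain ⟨ψ, hψ, rfl⟩ := hν
  have hc : ∀ a b : Z, a * b = b * a := by
    intro a b
    exact Subtype.ext (hZ a.1 a.2 b.1 b.2)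
  obtain ⟨h1, h2⟩ := irr_abelian hc ψ hψ
  constructor
  · unfold ext0
    rw [dif_pos Z.one_mem]
    exact h1
  · intro a ha b hb
    unfold ext0
    rw [dif_pos (Z.mul_mem ha hb), dif_pos ha, dif_pos hb]
    exact h2 ⟨a, ha⟩ ⟨b, hb⟩

end Pool.Agent.H72.FI
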