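import Pool.Agent.H6.FI.TargetsA

/-!
# Row AF1 of fi_modules: the socle of a primitive solvable permutation group
-/

open scoped Classical commutatorElement

namespace Pool.Agent.H72.FI

open _root_.FI

theorem pf_AF1 : T_AF1 := by
  intro R _ _ H hsol hco
  set B := H.normalCore with hB
  haveI hBn : B.Normal := Subgroup.normalCore_normal H
  have hBH : B ≤ H := Subgroup.normalCore_le H
  have hBtop : B < ⊤ := lt_of_le_of_lt hBH (lt_top_iff_ne_top.2 hco.1)
  obtain ⟨N, ⟨hNn, hBN⟩, hmin0⟩ := (Set.toFinite {L : Subgroup R | L.Normal ∧ B < L}).exists_minimal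
    ⟨⊤, ⟨inferInstance, hBtop⟩⟩
  haveI := hNn
  have hmin : ∀ L : Subgroup R, L.Normal → B ≤ L → L ≤ N → L = B ∨ L = N := by
    intro L hL hBL hLN
    by_cases h : L = B
    · exact Or.inl h
    · right
      refine le_antisymm hLN (hmin0 ⟨hL, lt_of_le_of_ne hBL (Ne.symm h)⟩ hLN)
  -- the quotient
  let f : R →* R ⧸ B := QuotientGroup.mk' B
  have hfs : Function.Surjective f := QuotientGroup.mk'_surjective B
  have hker : f.ker = B := QuotientGroup.ker_mk' B
  have hf1 : ∀ r : R, f r = 1 ↔ r ∈ B := by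
    intro r
    have h := MonoidHom.mem_ker (f := f) (x := r)
    rw [hker] at h
    exact h.symm
  haveI : Group.IsSolvable (R ⧸ B) := Group.isSolvable_of_surjective hfs
  let M : Subgroup (R ⧸ B) := N.map f
  haveI hMn : M.Normal := hNn.map f hfs
  have hMbot : M ≠ ⊥ := by
    intro h
    apply absurd hBN
    rw [lt_iff_le_not_ge, not_and_not_right]
    intro _
    have h2 : N ≤ f.ker := by
      rwa [Subgroup.map_eq_bot_iff] at h
    rwa [hker] at h2
  have hMmin : ∀ L : Subgroup (R ⧸ B), L.Normal → L ≤ M → L = ⊥ ∨ L = M := by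
    intro L hL hLM
    have h1 : B ≤ L.comap f := by
      intro r hr
      rw [Subgroup.mem_comap, (hf1 r).2 hr]
      exact L.one_mem
    have h2 : L.comap f ≤ N := by
      intro r hr
      obtain ⟨n, hn, hnr⟩ := Subgroup.mem_map.1 (hLM hr)
      have h3 : n⁻¹ * r ∈ B := by
        rw [← hf1, map_mul, map_inv, hnr, inv_mul_cancel]
      have h4 := N.mul_mem hn (hBN.le h3)
      rwa [mul_inv_cancel_left] at h4
    rcases hmin _ (hL.comap f) h1 h2 with h | h
    · left
      rw [← Subgroup.map_comap_eq_self_of_surjective hfs L, h, Subgroup.map_eq_bot_iff]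
      exact hker.ge
    · right
      rw [← Subgroup.map_comap_eq_self_of_surjective hfs L, h]
  have hMcomm : ⁅M, M⁆ = ⊥ := by
    have h1 := Group.IsSolvable.commutator_lt_of_ne_bot hMbot
    rcases hMmin ⁅M, M⁆ inferInstance h1.le with h | h
    · exact h
    · exact absurd h h1.ne
  have hMc : ∀ a ∈ M, ∀ b ∈ M, a * b = b * a := by
    intro a ha b hb
    have h1 : ⁅a, b⁆ ∈ ⁅M, M⁆ := Subgroup.commutator_mem_commutator ha hb
    rw [hMcomm, Subgroup.mem_bot] at h1
    exact commutatorElement_eq_one_iff_mul_comm.1 h1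
  have hcom : ∀ a ∈ N, ∀ b ∈ N, a * b * a⁻¹ * b⁻¹ ∈ B := by
    intro a ha b hb
    rw [← hf1]
    simp only [map_mul, map_inv]
    rw [hMc (f a) (Subgroup.mem_map_of_mem f ha) (f b) (Subgroup.mem_map_of_mem f hb)]
    group
  have hNH : ¬ N ≤ H := by
    intro h
    exact absurd (Subgroup.normal_le_normalCore.2 h) (not_le_of_gt hBN)
  have hsup : N ⊔ H = ⊤ := by
    apply hco.2
    refine lt_of_le_of_ne le_sup_right ?_
    intro h
    exact hNH (h ▸ le_sup_left)
  have hdec : ∀ r : R, ∃ n ∈ N, ∃ h ∈ H, n * h = r := by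
    intro r
    have hr : r ∈ N ⊔ H := by rw [hsup]; trivial
    exact Subgroup.mem_sup_of_normal_left.1 hr
  -- subgroups of `H` normalised by `H` and `N`
  have hnorm : ∀ T : Subgroup R, T ≤ H → (∀ h ∈ H, ∀ t ∈ T, h * t * h⁻¹ ∈ T) →
      (∀ n ∈ N, ∀ t ∈ T, n * t * n⁻¹ ∈ T) → T ≤ B := by
    intro T hTH hTh hTn
    haveI : T.Normal := by
      refine ⟨?_⟩
      intro t ht r
      obtain ⟨n, hn, h, hh, rfl⟩ := hdec r
      have h1 := hTn n hn _ (hTh h hh t ht)
      have h2 : n * h * t * (n * h)⁻¹ = n * (h * t * h⁻¹) * n⁻¹ := by group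
      rw [h2]
      exact h1
    exact Subgroup.normal_le_normalCore.2 hTH
  have hinf : N ⊓ H = B := by
    apply le_antisymm
    · apply hnorm _ inf_le_right
      · intro h hh t ht
        exact ⟨hNn.conj_mem t ht.1 h, H.mul_mem (H.mul_mem hh ht.2) (H.inv_mem hh)⟩
      · intro n hn t ht
        have h1 := hcom n hn t ht.1
        have h2 : n * t * n⁻¹ = (n * t * n⁻¹ * t⁻¹) * t := by group
        rw [h2]
        exact ⟨N.mul_mem (hBN.le h1) ht.1, H.mul_mem (hBH h1) ht.2⟩
    · exact le_inf hBN.le hBH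
  let E : Subgroup R := (Subgroup.centralizer (M : Set (R ⧸ B))).comap f
  haveI hEn : E.Normal := by
    haveI : (Subgroup.centralizer (M : Set (R ⧸ B))).Normal := inferInstance
    exact this.comap f
  have hEmem : ∀ r : R, (∀ a ∈ N, r * a * r⁻¹ * a⁻¹ ∈ B) ↔ r ∈ E := by
    intro r
    constructor
    · intro h
      change f r ∈ Subgroup.centralizer (M : Set (R ⧸ B))
      rw [Subgroup.mem_centralizer_iff]
      intro y hy
      obtain ⟨a, ha, rfl⟩ := Subgroup.mem_map.1 (SetLike.mem_coe.1 hy)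
      have h1 := h a ha
      rw [← hf1] at h1
      simp only [map_mul, map_inv] at h1
      rw [mul_inv_eq_one, mul_inv_eq_iff_eq_mul] at h1
      exact h1.symm
    · intro h a ha
      have h1 : f a * f r = f r * f a :=
        (Subgroup.mem_centralizer_iff.1 (show f r ∈ Subgroup.centralizer (M : Set (R ⧸ B)) from h))
          (f a) (Subgroup.mem_map_of_mem f ha)
      rw [← hf1]
      simp only [map_mul, map_inv]
      rw [← h1]
      group
  have hNE : N ≤ E := fun n hn => (hEmem n).1 fun a ha => hcom n hn a ha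
  have hEH : E ⊓ H ≤ B := by
    apply hnorm _ inf_le_right
    · intro h hh t ht
      exact ⟨hEn.conj_mem t ht.1 h, H.mul_mem (H.mul_mem hh ht.2) (H.inv_mem hh)⟩
    · intro n hn t ht
      have h1 := B.inv_mem ((hEmem t).2 ht.1 n hn)
      have h2 : n * t * n⁻¹ = (t * n * t⁻¹ * n⁻¹)⁻¹ * t := by group
      rw [h2]
      exact ⟨E.mul_mem (hNE (hBN.le h1)) ht.1, H.mul_mem (hBH h1) ht.2⟩
  refine ⟨N, ⟨hNn, hBN.le, hsup, hinf, hcom, ?_, hmin, ?_⟩⟩
  · intro r hr
    have hrE := (hEmem r).1 hr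
    obtain ⟨n, hn, h, hh, rfl⟩ := hdec r
    have h1 : h ∈ E := by
      have := E.mul_mem (E.inv_mem (hNE hn)) hrE
      rwa [inv_mul_cancel_left] at this
    exact N.mul_mem hn (hBN.le (hEH ⟨h1, hh⟩))
  · have hcard : B.relIndex N = Nat.card M := by
      have h := Subgroup.relIndex_ker N f
      rw [hker] at h
      exact h
    have hM1 : Nat.card M ≠ 1 := by
      intro h
      exact hMbot (Subgroup.card_eq_one.1 h)
    obtain ⟨p, hp, hpd⟩ := Nat.exists_prime_and_dvd hM1
    haveI : Fact p.Prime := ⟨hp⟩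
    let P : Subgroup (R ⧸ B) :=
      { carrier := {a | a ∈ M ∧ a ^ p = 1}
        mul_mem' := by
          rintro a b ⟨ha, ha1⟩ ⟨hb, hb1⟩
          refine ⟨M.mul_mem ha hb, ?_⟩
          rw [(show Commute a b from hMc a ha b hb).mul_pow, ha1, hb1, one_mul]
        one_mem' := ⟨M.one_mem, one_pow p⟩
        inv_mem' := by
          rintro a ⟨ha, ha1⟩
          refine ⟨M.inv_mem ha, ?_⟩
          rw [inv_pow, ha1, inv_one] }
    have hPn : P.Normal := by
      refine ⟨?_⟩
      rintro a ⟨ha, ha1⟩ g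
      refine ⟨hMn.conj_mem a ha g, ?_⟩
      rw [conj_pow, ha1, mul_one, mul_inv_cancel]
    have hPM : P ≤ M := fun a ha => ha.1
    have hPM' : P = M := by
      rcases hMmin P hPn hPM with h | h
      · exfalso
        obtain ⟨g, hg⟩ := exists_prime_orderOf_dvd_card' p hpd
        have h1 : (g : R ⧸ B) ∈ P := by
          refine ⟨g.2, ?_⟩
          have := pow_orderOf_eq_one g
          rw [hg] at this
          have h2 := congrArg (Subtype.val) this
          simpa using h2
        rw [h, Subgroup.mem_bot] at h1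
        have h2 : g = 1 := Subtype.ext h1
        rw [h2, orderOf_one] at hg
        exact hp.one_lt.ne hg
      · exact h
    have hpg : IsPGroup p M := by
      intro g
      refine ⟨1, ?_⟩
      have h1 : (g : R ⧸ B) ∈ P := by rw [hPM']; exact g.2
      apply Subtype.ext
      rw [pow_one]
      simpa using h1.2
    obtain ⟨k, hk⟩ := IsPGroup.iff_card.1 hpg
    refine ⟨p, k, hp, ?_, ?_⟩
    · rcases Nat.eq_zero_or_pos k with h0 | h0
      · rw [h0, pow_zero] at hk
        exact absurd hk hM1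
      · exact h0
    · rw [hcard, hk]

end Pool.Agent.H72.FI
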